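import Pool.Agent.Helper60.JZ.ERG

/-! Row TCH: the characters of the group of torsion points and Plancherel's formula. -/

open Finset Filter MeasureTheory Topology
open scoped ComplexConjugate InnerProductSpace

namespace Pool.Agent.Helper40.JZ

open Pool.Agent.Helper16.AZ (T E Op mm fc Ind)
open UnitAddTorus (mFourier)

theorem tch_add {r : ℕ} (n : Fin r → ℤ) (s t : T r) : chi n (s + t) = chi n s + chi n t := by
  simp only [chi, Pi.add_apply, smul_add, sum_add_distrib]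

theorem tch_neg {r : ℕ} (n : Fin r → ℤ) (s : T r) : chi n (-s) = -chi n s := by
  simp only [chi, Pi.neg_apply, smul_neg, sum_neg_distrib]

theorem tch_c {r : ℕ} (n : Fin r → ℤ) (s : T r) (j : ℤ) :
    (fourier j (chi n s) : ℂ) = mFourier (j • n) s := by
  have h : j • chi n s = ∑ i, (j • n) i • s i := by
    rw [chi, smul_sum]
    refine sum_congr rfl fun i _ => ?_
    rw [Pi.smul_apply, smul_smul, smul_eq_mul]
  rw [erg_mf, fourier_apply, h]

theorem tch_b {r q : ℕ} {s : T r} (hs : q • s = 0) {X : Fin r → ℤ} {ω : Fin r → ZMod q}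
    [NeZero q] (h : ∀ i, ((X i : ℤ) : ZMod q) = ω i) : chi X s = chi (vz ω) s := by
  unfold chi
  refine sum_congr rfl fun i _ => ?_
  have h1 : ((X i - vz ω i : ℤ) : ZMod q) = 0 := by
    rw [Int.cast_sub, h i, vz]
    simp
  obtain ⟨m, hm⟩ := (ZMod.intCast_zmod_eq_zero_iff_dvd _ q).1 h1
  have h2 : q • s i = 0 := by
    have := congrFun hs i
    exact this
  have h3 : (X i - vz ω i) • s i = 0 := by
    rw [hm, mul_comm, mul_smul, natCast_zsmul, h2, smul_zero]
  rw [sub_smul] at h3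
  exact sub_eq_zero.1 h3

theorem tch_sum (q : ℕ) [NeZero q] (f : ℕ → ℂ) : ∑ w : ZMod q, f w.val = ∑ j ∈ range q, f j := by
  cases q with
  | zero => exact absurd rfl (NeZero.ne 0)
  | succ n => exact Fin.sum_univ_eq_sum_range f (n + 1)

theorem tch_geom (q : ℕ) [NeZero q] {t : U} (ht : q • t = 0) (h0 : t ≠ 0) :
    ∑ w : ZMod q, (fourier 1 (((w.val : ℕ) : ℤ) • t) : ℂ) = 0 := by
  have e : ∀ j : ℕ, (fourier 1 (((j : ℕ) : ℤ) • t) : ℂ) = (fourier 1 t : ℂ) ^ j := by
    intro j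
    rw [fourier_one, fourier_one, natCast_zsmul, AddCircle.toCircle_nsmul, Circle.coe_pow]
  have h1 := tch_sum q fun j => (fourier 1 t : ℂ) ^ j
  simp only [e]
  rw [h1]
  have hne : (fourier 1 t : ℂ) ≠ 1 := by
    intro h2
    apply h0
    apply erg_fourier_inj
    rw [h2, fourier_one, AddCircle.toCircle_zero, Circle.coe_one]
  have hq : (fourier 1 t : ℂ) ^ q = 1 := by
    rw [← e, natCast_zsmul, ht, fourier_one, AddCircle.toCircle_zero, Circle.coe_one]
  have h3 := geom_sum_mul (fourier 1 t : ℂ) q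
  rw [hq, sub_self] at h3
  exact (mul_eq_zero.1 h3).resolve_right (sub_ne_zero.2 hne)

theorem tch_orth {r q : ℕ} [NeZero q] {t : T r} (ht : q • t = 0) :
    ∑ ω : Fin r → ZMod q, (fourier 1 (chi (vz ω) t) : ℂ) = if t = 0 then (q : ℂ) ^ r else 0 := by
  have h1 : ∀ ω : Fin r → ZMod q, (fourier 1 (chi (vz ω) t) : ℂ) =
      ∏ i, (fourier 1 ((((ω i).val : ℕ) : ℤ) • t i) : ℂ) := by
    intro ω
    rw [tch_c, one_smul]
    have h5 : (mFourier (vz ω) t : ℂ) = ∏ i, (fourier (vz ω i) (t i) : ℂ) := rfl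
    rw [h5]
    refine prod_congr rfl fun i _ => ?_
    rw [fourier_apply, fourier_one]
    rfl
  simp only [h1]
  have h2 := Fintype.prod_sum (fun (i : Fin r) (w : ZMod q) =>
    (fourier 1 (((w.val : ℕ) : ℤ) • t i) : ℂ))
  rw [← h2]
  by_cases h0 : t = 0
  · rw [if_pos h0, h0]
    have h3 : ∀ i : Fin r, ∑ w : ZMod q, (fourier 1 (((w.val : ℕ) : ℤ) • (0 : T r) i) : ℂ) = q := by
      intro i
      have : ∀ w : ZMod q, (fourier 1 (((w.val : ℕ) : ℤ) • (0 : T r) i) : ℂ) = 1 := by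
        intro w
        rw [Pi.zero_apply, smul_zero, fourier_one, AddCircle.toCircle_zero, Circle.coe_one]
      simp only [this, sum_const, card_univ, ZMod.card, nsmul_eq_mul, mul_one]
    simp only [h3, prod_const, card_univ, Fintype.card_fin]
  · rw [if_neg h0]
    obtain ⟨i, hi⟩ : ∃ i, t i ≠ 0 := by
      by_contra h
      push Not at h
      exact h0 (funext h)
    exact prod_eq_zero (mem_univ i) (tch_geom q (congrFun ht i) hi)

theorem tch_d {r q : ℕ} [NeZero q] (h1 : ∀ s : T r, s ∈ tor r q ↔ q • s = 0) (v : T r → ℂ) :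
    ∑ ω : Fin r → ZMod q, ‖∑ s ∈ tor r q, fourier 1 (chi (vz ω) s) * v s‖ ^ 2 =
      (q : ℝ) ^ r * ∑ s ∈ tor r q, ‖v s‖ ^ 2 := by
  have key : (((∑ ω : Fin r → ZMod q, ‖∑ s ∈ tor r q, fourier 1 (chi (vz ω) s) * v s‖ ^ 2) : ℝ) :
      ℂ) = (((q : ℝ) ^ r * ∑ s ∈ tor r q, ‖v s‖ ^ 2 : ℝ) : ℂ) := by
    have e1 : ∀ ω : Fin r → ZMod q,
        ((‖∑ s ∈ tor r q, fourier 1 (chi (vz ω) s) * v s‖ ^ 2 : ℝ) : ℂ) =
        ∑ s ∈ tor r q, ∑ s' ∈ tor r q, fourier 1 (chi (vz ω) (s - s')) * (v s * conj (v s')) := by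
      intro ω
      rw [Complex.ofReal_pow, ← Complex.mul_conj', map_sum, sum_mul_sum]
      refine sum_congr rfl fun s _ => sum_congr rfl fun s' _ => ?_
      rw [map_mul, sub_eq_add_neg, tch_add, tch_neg]
      have e2 : (fourier 1 (chi (vz ω) s + -chi (vz ω) s') : ℂ) =
          fourier 1 (chi (vz ω) s) * conj (fourier 1 (chi (vz ω) s') : ℂ) := by
        rw [fourier_one, fourier_one, fourier_one, AddCircle.toCircle_add, AddCircle.toCircle_neg,
          Circle.coe_mul, Circle.coe_inv_eq_conj]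
      rw [e2]
      ring
    push_cast [e1]
    simp only [← Complex.ofReal_pow]
    rw [sum_comm, mul_sum]
    refine sum_congr rfl fun s hs => ?_
    rw [sum_comm]
    have e3 : ∀ s' ∈ tor r q, ∑ ω : Fin r → ZMod q,
        fourier 1 (chi (vz ω) (s - s')) * (v s * conj (v s')) =
        if s' = s then (q : ℂ) ^ r * ((‖v s‖ ^ 2 : ℝ) : ℂ) else 0 := by
      intro s' hs'
      rw [← sum_mul, tch_orth (by
        rw [smul_sub, (h1 s).1 hs, (h1 s').1 hs', sub_zero])]
      by_cases h : s' = s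
      · rw [if_pos h, h, sub_self, if_pos rfl, Complex.mul_conj', Complex.ofReal_pow]
      · rw [if_neg h, if_neg (fun h' => h (sub_eq_zero.1 h').symm), zero_mul]
    rw [sum_congr rfl e3, sum_ite_eq' (tor r q) s, if_pos hs]
  exact_mod_cast key

theorem tch_a {r q : ℕ} [NeZero q] (hq : 1 ≤ q) (hT : ∀ r : ℕ, ∀ s : T r, s ∈ tor r q ↔ q • s = 0)
    (χ : T r → U)
    (hχ : ∀ s ∈ tor r q, ∀ s' ∈ tor r q, χ (s + s') = χ s + χ s') :
    ∃ ω : Fin r → ZMod q, ∀ s ∈ tor r q, χ s = chi (vz ω) s := by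
  have h0m : (0 : T r) ∈ tor r q := (hT r 0).2 (smul_zero _)
  have hadd : ∀ s ∈ tor r q, ∀ s' ∈ tor r q, s + s' ∈ tor r q := by
    intro s hs s' hs'
    rw [hT] at hs hs' ⊢
    rw [smul_add, hs, hs', add_zero]
  have hχ0 : χ 0 = 0 := by
    have := hχ 0 h0m 0 h0m
    rw [add_zero] at this
    exact left_eq_add.1 this
  have hn : ∀ s ∈ tor r q, ∀ n : ℕ, n • s ∈ tor r q ∧ χ (n • s) = n • χ s := by
    intro s hs n
    induction n with
    | zero => simp [h0m, hχ0]
    | succ n ih =>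
      rw [succ_nsmul, succ_nsmul]
      exact ⟨hadd _ ih.1 _ hs, by rw [hχ _ ih.1 _ hs, ih.2]⟩
  have hsum : ∀ (A : Finset (Fin r)) (g : Fin r → T r), (∀ i, g i ∈ tor r q) →
      (∑ i ∈ A, g i) ∈ tor r q ∧ χ (∑ i ∈ A, g i) = ∑ i ∈ A, χ (g i) := by
    intro A g hg
    induction A using Finset.induction_on with
    | empty => simp [h0m, hχ0]
    | insert a A ha ih =>
      rw [sum_insert ha, sum_insert ha]
      exact ⟨hadd _ (hg a) _ ih.1, by rw [hχ _ (hg a) _ ih.1, ih.2]⟩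
  have hqr : (q : ℝ) ≠ 0 := by
    have : (0 : ℝ) < q := by exact_mod_cast hq
    exact this.ne'
  have hq1 : q • (((1 : ℝ) / q : ℝ) : U) = 0 := by
    rw [← AddCircle.coe_nsmul, nsmul_eq_mul, mul_one_div_cancel hqr]
    exact AddCircle.coe_period (1 : ℝ)
  have he : ∀ i : Fin r, (Pi.single i (((1 : ℝ) / q : ℝ) : U) : T r) ∈ tor r q := by
    intro i
    rw [hT]
    funext j
    by_cases h : j = i
    · subst h
      simp only [Pi.smul_apply, Pi.single_eq_same, Pi.zero_apply]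
      exact hq1
    · simp [Pi.single_eq_of_ne h]
  -- the values on the generators
  have hw : ∀ i : Fin r, ∃ w : ℕ, w < q ∧
      χ (Pi.single i (((1 : ℝ) / q : ℝ) : U)) = (((w : ℝ) / q : ℝ) : U) := by
    intro i
    have h1 : q • χ (Pi.single i (((1 : ℝ) / q : ℝ) : U)) = 0 := by
      rw [← (hn _ (he i) q).2, (hT r _).1 (he i), hχ0]
    have h2 : (fun _ => χ (Pi.single i (((1 : ℝ) / q : ℝ) : U)) : T 1) ∈ tor 1 q := by
      rw [hT]
      funext _
      exact h1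
    rw [tor, Fintype.mem_piFinset] at h2
    obtain ⟨w, hw1, hw2⟩ := mem_image.1 (h2 0)
    exact ⟨w, mem_range.1 hw1, hw2.symm⟩
  choose w hwq hw using hw
  refine ⟨fun i => ((w i : ℕ) : ZMod q), fun s hs => ?_⟩
  have hk : ∀ i : Fin r, ∃ k : ℕ, s i = (((k : ℝ) / q : ℝ) : U) := by
    intro i
    have h2 := hs
    rw [tor, Fintype.mem_piFinset] at h2
    obtain ⟨k, -, hk⟩ := mem_image.1 (h2 i)
    exact ⟨k, hk.symm⟩
  choose k hk using hk
  have hse : s = ∑ i, k i • (Pi.single i (((1 : ℝ) / q : ℝ) : U) : T r) := by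
    funext j
    rw [Finset.sum_apply, sum_eq_single j]
    · rw [Pi.smul_apply, Pi.single_eq_same, hk j, ← AddCircle.coe_nsmul, nsmul_eq_mul,
        mul_one_div]
    · intro i _ hij
      rw [Pi.smul_apply, Pi.single_eq_of_ne (Ne.symm hij), smul_zero]
    · intro h
      exact absurd (mem_univ j) h
  have h3 : χ s = ∑ i, k i • (((w i : ℝ) / q : ℝ) : U) := by
    conv_lhs => rw [hse]
    rw [(hsum univ _ fun i => (hn _ (he i) (k i)).1).2]
    refine sum_congr rfl fun i _ => ?_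
    rw [(hn _ (he i) (k i)).2, hw i]
  rw [h3, chi]
  refine sum_congr rfl fun i _ => ?_
  have h4 : vz (fun i => ((w i : ℕ) : ZMod q)) i = (w i : ℤ) := by
    rw [vz, ZMod.val_cast_of_lt (hwq i)]
  rw [h4, hk i, natCast_zsmul, ← AddCircle.coe_nsmul, ← AddCircle.coe_nsmul, nsmul_eq_mul,
    nsmul_eq_mul]
  congr 1
  ring

theorem st_TCH (hTOR : ST_TOR) : ST_TCH := by
  intro r q _
  have hq : 1 ≤ q := Nat.one_le_iff_ne_zero.2 (NeZero.ne q)
  have hT : ∀ r : ℕ, ∀ s : T r, s ∈ tor r q ↔ q • s = 0 := fun r => (hTOR r q hq).1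
  refine ⟨fun χ hχ => tch_a hq hT χ hχ, ?_, ?_, fun v => tch_d (hT r) v⟩
  · intro X ω h s hs
    exact tch_b ((hT r s).1 hs) h
  · intro n s j
    exact tch_c n s j

end Pool.Agent.Helper40.JZ
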