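import Pool.Agent.Helper40.JZ.Stmts
import Pool.Agent.Helper57.DZ.FPR

/-! Row ERG: minimal rotations of the torus are ergodic. -/

open Finset Filter MeasureTheory Topology
open scoped ComplexConjugate InnerProductSpace

namespace Pool.Agent.Helper40.JZ

open Pool.Agent.Helper16.AZ (T E Op mm fc Ind)
open Pool.Agent.Helper40.DZ (fpr_one fpr_trans)
open UnitAddTorus (mFourier)

theorem erg_mf {r : ℕ} (X : Fin r → ℤ) (β : T r) :
    (mFourier X β : ℂ) = ((AddCircle.toCircle (∑ i, X i • β i) : Circle) : ℂ) := by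
  have h : ∀ s : Finset (Fin r), (∏ i ∈ s, (fourier (X i) (β i) : ℂ)) =
      ((AddCircle.toCircle (∑ i ∈ s, X i • β i) : Circle) : ℂ) := by
    intro s
    induction s using Finset.induction_on with
    | empty => simp
    | insert a s ha ih =>
      rw [prod_insert ha, sum_insert ha, AddCircle.toCircle_add, Circle.coe_mul, ih,
        fourier_apply]
  exact h univ

theorem erg_ne {r : ℕ} {X : Fin r → ℤ} {β : T r} (h : ∑ i, X i • β i ≠ 0) :
    (mFourier X β : ℂ) ≠ 1 := by
  rw [erg_mf]
  intro h1
  apply h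
  have h2 : AddCircle.toCircle (∑ i, X i • β i) = AddCircle.toCircle (0 : UnitAddCircle) := by
    rw [AddCircle.toCircle_zero]
    exact Circle.ext h1
  exact AddCircle.injective_toCircle one_ne_zero h2

theorem erg_fourier_inj {x y : U} (h : (fourier 1 x : ℂ) = fourier 1 y) : x = y := by
  rw [fourier_one, fourier_one] at h
  exact AddCircle.injective_toCircle one_ne_zero (Circle.ext h)

theorem erg_fc {r : ℕ} {β : T r} {F : T r → ℂ} (hi : ∀ᵐ z ∂(mm r), F (z + β) = F z)
    (X : Fin r → ℤ) : ((mFourier X β : ℂ) - 1) * fc F X = 0 := by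
  have h1 : fc (fun y => F (y + β)) X = fc F X := by
    unfold fc
    refine integral_congr_ae ?_
    filter_upwards [hi] with z hz
    rw [hz]
  rw [fpr_trans] at h1
  linear_combination h1

theorem erg_fc0 {r : ℕ} (F : T r → ℂ) : fc F 0 = ∫ z, F z ∂(mm r) := by
  have e : ∀ z : T r, (mFourier (-(0 : Fin r → ℤ)) z : ℂ) = 1 := by
    intro z
    rw [neg_zero, UnitAddTorus.mFourier_zero]
    rfl
  unfold fc
  simp only [e, one_mul]

theorem erg_three {r : ℕ} {β : T r} (hβ : Ind β) {h : T r → ℂ} (hm : MemLp h 2 (mm r))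
    (hi : ∀ᵐ z ∂(mm r), h (z + β) = h z) : ∃ c : ℂ, ∀ᵐ z ∂(mm r), h z = c := by
  have hint : Integrable h (mm r) := hm.integrable one_le_two
  have e0 := erg_fc0 h
  generalize hcc : fc h 0 = c at e0
  have hc : MemLp (fun _ : T r => c) 2 (mm r) := memLp_const _
  have hd : MemLp (fun z => h z - c) 2 (mm r) := hm.sub hc
  have hz : ∀ X : Fin r → ℤ, fc (fun z => h z - c) X = 0 := by
    intro X
    by_cases hX : X = 0
    · subst hX
      rw [erg_fc0, integral_sub hint (integrable_const _), ← e0]
      simp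
    · have h3 := erg_fc (β := β) (F := fun z => h z - c) (by
        filter_upwards [hi] with z hz
        rw [hz]) X
      exact (mul_eq_zero.1 h3).resolve_left (sub_ne_zero.2 (erg_ne (hβ X hX)))
  have h4 := fpr_one hd
  simp only [hz, norm_zero] at h4
  have h5 : (∫ z, ‖h z - c‖ ^ 2 ∂(mm r)) = 0 := by
    refine h4.unique ?_
    have : (fun _ : Fin r → ℤ => (0 : ℝ) ^ 2) = fun _ => 0 := by
      funext _
      norm_num
    rw [this]
    exact hasSum_zero
  have h6 : Integrable (fun z => ‖h z - c‖ ^ 2) (mm r) := hd.integrable_norm_pow two_ne_zero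
  rw [integral_eq_zero_iff_of_nonneg (fun z => by positivity) h6] at h5
  refine ⟨c, ?_⟩
  filter_upwards [h5] with z hz
  have h7 : ‖h z - c‖ ^ 2 = 0 := hz
  have h8 : h z - c = 0 := by
    rw [← norm_eq_zero]
    exact pow_eq_zero_iff two_ne_zero |>.1 h7
  exact sub_eq_zero.1 h8

theorem st_ERG : ST_ERG := by
  intro r β hβ
  refine ⟨?_, ?_, fun h hm hi => erg_three hβ hm hi⟩
  · intro p hp X hX h0
    apply hβ (fun i => (p : ℤ) * X i)
    · intro h1
      apply hX
      funext i
      have h2 := congrFun h1 i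
      have h3 : (p : ℤ) * X i = 0 := h2
      have hp0 : (p : ℤ) ≠ 0 := by
        have : p ≠ 0 := by omega
        exact_mod_cast this
      exact (mul_eq_zero.1 h3).resolve_left hp0
    · rw [← h0]
      refine sum_congr rfl fun i _ => ?_
      show ((p : ℤ) * X i) • β i = X i • (p • β) i
      rw [Pi.smul_apply, mul_comm, mul_smul, natCast_zsmul]
  · intro u hu hi
    have hm : MemLp (fun z : T r => (fourier 1 (u z) : ℂ)) 2 (mm r) := by
      have hmeas : Measurable fun z : T r => (fourier 1 (u z) : ℂ) :=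
        (fourier 1 : C(U, ℂ)).continuous.measurable.comp hu
      refine MemLp.of_bound hmeas.aestronglyMeasurable 1 (Eventually.of_forall fun z => ?_)
      rw [fourier_apply, Circle.norm_coe]
    obtain ⟨c, hc⟩ := erg_three hβ hm (by
      filter_upwards [hi] with z hz
      rw [hz])
    obtain ⟨z₀, hz₀⟩ := hc.exists
    refine ⟨u z₀, ?_⟩
    filter_upwards [hc] with z hz
    exact erg_fourier_inj (hz.trans hz₀.symm)

end Pool.Agent.Helper40.JZ
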