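import Pool.Agent.Helper40.JZ.Stmts

/-! Row POW: from the power `p` of the rotation to the rotation. -/

open Finset Filter MeasureTheory Topology
open scoped ComplexConjugate InnerProductSpace

namespace Pool.Agent.Helper40.JZ

open Pool.Agent.Helper16.AZ (T E Op mm fc Ind)

/-- almost everywhere statements can be translated -/
theorem pow_shift {r : ℕ} {P : T r → Prop} (h : ∀ᵐ x ∂(mm r), P x) (c : T r) :
    ∀ᵐ x ∂(mm r), P (x + c) :=
  (measurePreserving_add_right (mm r) c).quasiMeasurePreserving.ae h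

theorem pow_cs {r : ℕ} (θ : T r) (κ : T r → U) (p : ℕ) (x : T r) :
    cs θ κ p (x + θ) + κ x = cs θ κ p x + κ (x + p • θ) := by
  induction p with
  | zero => simp [cs_zero]
  | succ p ih =>
    rw [cs_succ, cs_succ]
    have e : x + θ + p • θ = x + (p + 1) • θ := by
      rw [succ_nsmul]; abel
    rw [e, add_right_comm, ih]

theorem st_POW (hERG : ST_ERG) : ST_POW := by
  intro r θ hθ p κ D hp hκ hD h
  obtain ⟨h1, -, -⟩ := hERG r θ hθ
  obtain ⟨-, h2, -⟩ := hERG r (p • θ) (h1 p hp)
  have hinv : ∀ᵐ x ∂(mm r), (fun x => D (x + θ) - D x - κ x) (x + p • θ) =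
      (fun x => D (x + θ) - D x - κ x) x := by
    filter_upwards [h, pow_shift h θ] with x hx hx'
    show D (x + p • θ + θ) - D (x + p • θ) - κ (x + p • θ) = D (x + θ) - D x - κ x
    have e : x + p • θ + θ = x + θ + p • θ := by abel
    have e2 := pow_cs θ κ p x
    rw [e, hx', hx]
    have e3 : cs θ κ p (x + θ) = cs θ κ p x + κ (x + p • θ) - κ x := by
      rw [← e2, add_sub_cancel_right]
    rw [e3]
    abel
  have hm : Measurable fun x => D (x + θ) - D x - κ x :=
    ((hD.comp (measurable_add_const θ)).sub hD).sub hκ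
  obtain ⟨ω, hω⟩ := h2 _ hm hinv
  have hω' : ∀ᵐ x ∂(mm r), D (x + θ) = ω + κ x + D x := by
    filter_upwards [hω] with x hx
    rw [← hx]
    abel
  refine ⟨ω, ?_, hω'⟩
  have hn : ∀ n : ℕ, ∀ᵐ x ∂(mm r), D (x + n • θ) = n • ω + cs θ κ n x + D x := by
    intro n
    induction n with
    | zero => exact Eventually.of_forall fun x => by simp [cs_zero]
    | succ n ih =>
      filter_upwards [ih, pow_shift hω' (n • θ)] with x hx hx'
      have e : x + (n + 1) • θ = x + n • θ + θ := by
        rw [succ_nsmul]; abel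
      rw [e, hx', hx, cs_succ, succ_nsmul]
      abel
  obtain ⟨x, hx, hx'⟩ := ((hn p).and h).exists
  rw [hx, add_assoc] at hx'
  exact add_eq_right.1 hx'

end Pool.Agent.Helper40.JZ
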