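import Pool.Agent.Helper40.JZ.Stmts

/-! Row MPZ: the multiplication by `p` on the torus. Row RTM: measurable division. -/

open Finset Filter MeasureTheory Topology
open scoped ComplexConjugate InnerProductSpace

namespace Pool.Agent.Helper40.JZ

open Pool.Agent.Helper16.AZ (T E Op mm fc Ind)

/-- measurable representative in `[0, 1)` -/
noncomputable def mpz_rep (t : U) : ℝ := (AddCircle.measurableEquivIco (1 : ℝ) 0 t : ℝ)

theorem mpz_rep_meas : Measurable mpz_rep :=
  measurable_subtype_coe.comp (AddCircle.measurableEquivIco (1 : ℝ) 0).measurable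

theorem mpz_rep_coe (t : U) : ((mpz_rep t : ℝ) : U) = t :=
  (AddCircle.measurableEquivIco (1 : ℝ) 0).symm_apply_apply t

theorem mpz_div (p : ℕ) (hp : 1 ≤ p) (t : U) : p • ((mpz_rep t / p : ℝ) : U) = t := by
  have h0 : (p : ℝ) ≠ 0 := by
    have : (0 : ℝ) < p := by exact_mod_cast hp
    exact this.ne'
  rw [← AddCircle.coe_nsmul, nsmul_eq_mul, mul_div_cancel₀ _ h0, mpz_rep_coe]

/-- measurable section of the multiplication by `p` -/
noncomputable def mpz_sec {r : ℕ} (p : ℕ) (w : T r) : T r :=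
  fun i => ((mpz_rep (w i) / p : ℝ) : U)

theorem mpz_sec_meas {r : ℕ} (p : ℕ) : Measurable (mpz_sec p : T r → T r) :=
  measurable_pi_lambda _ fun i =>
    AddCircle.measurable_mk'.comp ((mpz_rep_meas.comp (measurable_pi_apply i)).div_const _)

theorem mpz_sec_mul {r : ℕ} {p : ℕ} (hp : 1 ≤ p) (w : T r) : p • mpz_sec p w = w := by
  funext i
  exact mpz_div p hp (w i)

theorem mpz_one (r p : ℕ) (hp : 1 ≤ p) (x₀ : T r) :
    MeasurePreserving (fun z : T r => x₀ + p • z) (mm r) (mm r) := by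
  have hp0 : (p : ℤ) ≠ 0 := by
    have : p ≠ 0 := by omega
    exact_mod_cast this
  have h1 : MeasurePreserving (fun z : T r => (p : ℤ) • z) (mm r) (mm r) :=
    Measure.measurePreserving_zsmul (mm r) hp0
  have h2 : MeasurePreserving (fun z : T r => p • z) (mm r) (mm r) := by
    have e : (fun z : T r => (p : ℤ) • z) = fun z => p • z := by
      funext z
      rw [natCast_zsmul]
    rwa [e] at h1
  exact (measurePreserving_add_left (mm r) x₀).comp h2

theorem st_MPZ (hTOR : ST_TOR) : ST_MPZ := by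
  intro r p hp
  refine ⟨mpz_one r p hp, fun u hu h => ⟨fun w => u (mpz_sec p w), hu.comp (mpz_sec_meas p), ?_⟩⟩
  have h2 : ∀ᵐ z ∂(mm r), ∀ s ∈ tor r p, u (z + s) = u z :=
    (Finset.eventually_all (tor r p)).2 h
  filter_upwards [h2] with z hz
  have h3 : mpz_sec p (p • z) - z ∈ tor r p := by
    rw [(hTOR r p hp).1, smul_sub, mpz_sec_mul hp, sub_self]
  have h4 := hz _ h3
  rw [add_sub_cancel] at h4
  exact h4.symm

theorem st_RTM : ST_RTM := by
  intro a ha
  have h0 : (a : ℝ) ≠ 0 := by exact_mod_cast ha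
  refine ⟨fun t => ((mpz_rep t / a : ℝ) : U),
    AddCircle.measurable_mk'.comp (mpz_rep_meas.div_const _), fun t => ?_⟩
  rw [← AddCircle.coe_zsmul, zsmul_eq_mul, mul_div_cancel₀ _ h0, mpz_rep_coe]

end Pool.Agent.Helper40.JZ
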