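import Pool.Agent.Helper60.JZ.TCH
import Pool.Agent.Helper60.JZ.POW
import Pool.Agent.Helper60.JZ.MPZ

/-! Rows LCH and PUR: lifts differ by characters; no resonance with one side only. -/

open Finset Filter MeasureTheory Topology
open scoped ComplexConjugate InnerProductSpace

namespace Pool.Agent.Helper40.JZ

open Pool.Agent.Helper16.AZ (T E Op mm fc Ind)
open UnitAddTorus (mFourier)

/-- an additive family of constants is a character -/
theorem pur_char {r q : ℕ} [NeZero q] (hTOR : ST_TOR) (hTCH : ST_TCH) {v : T r → T r → U}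
    (h1 : ∀ s ∈ tor r q, ∃ c : U, ∀ᵐ z ∂(mm r), v s z = c)
    (h2 : ∀ s ∈ tor r q, ∀ s' ∈ tor r q, ∀ᵐ z ∂(mm r), v (s + s') z = v s (z + s') + v s' z) :
    ∃ ω : Fin r → ZMod q, ∀ s ∈ tor r q, ∀ᵐ z ∂(mm r), v s z = chi (vz ω) s := by
  have hq : 1 ≤ q := Nat.one_le_iff_ne_zero.2 (NeZero.ne q)
  have h1' : ∀ s : T r, ∃ c : U, s ∈ tor r q → ∀ᵐ z ∂(mm r), v s z = c := by
    intro s
    by_cases hs : s ∈ tor r q
    · obtain ⟨c, hc⟩ := h1 s hs
      exact ⟨c, fun _ => hc⟩
    · exact ⟨0, fun h => absurd h hs⟩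
  choose χ hχ using h1'
  have hadd : ∀ s ∈ tor r q, ∀ s' ∈ tor r q, s + s' ∈ tor r q := by
    intro s hs s' hs'
    rw [(hTOR r q hq).1] at hs hs' ⊢
    rw [smul_add, hs, hs', add_zero]
  obtain ⟨ω, hω⟩ := (hTCH r q).1 χ (by
    intro s hs s' hs'
    obtain ⟨z, a, b, c, d⟩ := ((hχ _ (hadd s hs s' hs')).and ((pow_shift (hχ s hs) s').and
      ((hχ s' hs').and (h2 s hs s' hs')))).exists
    rw [← a, d, b, c])
  refine ⟨ω, fun s hs => ?_⟩
  filter_upwards [hχ s hs] with z hz
  rw [hz, hω s hs]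

theorem st_LCH (hTOR : ST_TOR) (hTCH : ST_TCH) (hERG : ST_ERG) : ST_LCH := by
  intro r θ f q _ a D D' hθ hD hD'
  obtain ⟨ω, hω⟩ := pur_char hTOR hTCH (v := fun s x => D' s x - D s x) (by
    intro s hs
    refine (hERG r θ hθ).2.1 _ ((hD'.1 s hs).sub (hD.1 s hs)) ?_
    filter_upwards [hD.2.2 s hs, hD'.2.2 s hs] with x hx hx'
    have e : D s (x + θ) = a • f (x + s) + D s x - a • f x := eq_sub_of_add_eq hx
    have e' : D' s (x + θ) = a • f (x + s) + D' s x - a • f x := eq_sub_of_add_eq hx'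
    rw [e, e']
    abel) (by
    intro s hs s' hs'
    filter_upwards [hD.2.1 s hs s' hs', hD'.2.1 s hs s' hs'] with x hx hx'
    rw [hx, hx']
    abel)
  refine ⟨ω, fun s hs => ?_⟩
  filter_upwards [hω s hs] with x hx
  rw [← hx]
  abel

theorem pur_zsmul {α : Type} [MeasurableSpace α] {g : α → U} (hg : Measurable g) (b : ℤ) :
    Measurable fun x => b • g x :=
  ((continuous_zsmul b).measurable).comp hg

theorem pur_nsmul {α : Type} [MeasurableSpace α] {g : α → U} (hg : Measurable g) (b : ℕ) :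
    Measurable fun x => b • g x :=
  ((continuous_nsmul b).measurable).comp hg

theorem pur_chi_meas {r : ℕ} (n : Fin r → ℤ) : Measurable (chi n : T r → U) := by
  unfold chi
  exact Finset.measurable_sum _ fun i _ => pur_zsmul (measurable_pi_apply i) (n i)

theorem pur_cs_smul {r : ℕ} (θ : T r) (f : T r → U) (b : ℤ) (x₀ : T r) (c : U) (n : ℕ) (y : T r) :
    cs θ (fun y => b • f (x₀ + y) - c) n y = b • cs θ f n (x₀ + y) - n • c := by
  simp only [cs, sum_sub_distrib, smul_sum, sum_const, card_range, add_assoc]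

theorem pur_cs_meas {r : ℕ} (θ : T r) {f : T r → U} (hf : Measurable f) (n : ℕ) :
    Measurable (cs θ f n) := by
  unfold cs
  exact Finset.measurable_sum _ fun j _ => hf.comp (measurable_add_const _)

theorem st_PUR (hTOR : ST_TOR) (hTCH : ST_TCH) (hERG : ST_ERG) (hMPZ : ST_MPZ) (hPOW : ST_POW) :
    ST_PUR := by
  intro r θ f hθ hf hN q x₀ b u hq hu h
  have : NeZero q := ⟨by omega⟩
  have hfm : Measurable f := hf.measurable
  -- the increments along the torsion points
  obtain ⟨ω, hω⟩ := pur_char hTOR hTCH (q := q) (v := fun s z => u (z + s) - u z) (by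
    intro s hs
    refine (hERG r θ hθ).2.1 _ ((hu.comp (measurable_add_const s)).sub hu) ?_
    filter_upwards [h, pow_shift h s] with z hz hz'
    have e : z + θ + s = z + s + θ := by abel
    have e2 : x₀ + q • (z + s) = x₀ + q • z := by
      rw [smul_add, ((hTOR r q hq).1 s).1 hs, add_zero]
    rw [e, hz', hz, e2]
    abel) (by
    intro s hs s' hs'
    refine Eventually.of_forall fun z => ?_
    have e : z + (s + s') = z + s' + s := by abel
    rw [e]
    abel)
  set n := vz ω with hn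
  -- division by `q`
  obtain ⟨w₁, hw₁, hw⟩ := (hMPZ r q hq).2 (fun z => u z - chi n z) (hu.sub (pur_chi_meas n)) (by
    intro s hs
    filter_upwards [hω s hs] with z hz
    have hz' : u (z + s) = chi n s + u z := by
      rw [← hz]
      abel
    rw [hz', tch_add]
    abel)
  have h3 : ∀ᵐ z ∂(mm r), w₁ (0 + q • z + q • θ) =
      b • cs θ f q (x₀ + (0 + q • z)) - chi n θ + w₁ (0 + q • z) := by
    filter_upwards [h, hw, pow_shift hw θ] with z hz hz1 hz2
    rw [zero_add, ← smul_add, ← hz2, ← hz1, hz, tch_add]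
    abel
  have h4 : ∀ᵐ y ∂(mm r), w₁ (y + q • θ) = b • cs θ f q (x₀ + y) - chi n θ + w₁ y := by
    have hmp := (hMPZ r q hq).1 0
    rw [← hmp.map_eq]
    rw [ae_map_iff hmp.measurable.aemeasurable]
    · exact h3
    · refine measurableSet_eq_fun (hw₁.comp (measurable_add_const _)) ?_
      exact ((pur_zsmul ((pur_cs_meas θ hfm q).comp (measurable_const_add x₀)) b).sub_const
        _).add hw₁
  obtain ⟨ω', hω', h5⟩ := hPOW r θ hθ q
    (fun y => b • f (x₀ + y) - ((mpz_rep (chi n θ) / q : ℝ) : U)) w₁ hq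
    ((pur_zsmul (hfm.comp (measurable_const_add x₀)) b).sub_const _) hw₁ (by
      filter_upwards [h4] with y hy
      rw [hy, pur_cs_smul, mpz_div q hq])
  by_contra hb
  have hqb : (q : ℤ) * b ≠ 0 := by
    refine mul_ne_zero ?_ hb
    have : q ≠ 0 := by omega
    exact_mod_cast this
  refine hN ((q : ℤ) * b) hqb (fun x => -(q • w₁ (x + -x₀)) - chi n x) ?_ ?_
  · exact ((pur_nsmul (hw₁.comp (measurable_add_const _)) q).neg).sub (pur_chi_meas n)
  · filter_upwards [pow_shift h5 (-x₀)] with x hx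
    have e : x + θ + -x₀ = x + -x₀ + θ := by abel
    have e2 : x₀ + (x + -x₀) = x := by abel
    rw [e, hx, e2, tch_add, mul_smul, natCast_zsmul, smul_add, smul_add, smul_sub, hω',
      mpz_div q hq]
    abel

end Pool.Agent.Helper40.JZ
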